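import Pool.Agent.V11219.PerRel

/-!
# All relations of bounded degree between the periods of almost all fibres of families of abelian
varieties with local monodromy conditions, with several pieces at the same parameter

Let `h_i`, `1 ≤ i ≤ k`, be families of G-functions over `ℚ` (with the conditions of Siegel and
Galochkin, regular singular with rational exponents at `0`) and let `P_i(x)` be square matrices whose
entries are polynomials with complex coefficients in `log x` and in the functions `h_{i,l}(x)`: the
period matrices of `⨁_j H^1(A_{ij,x})` for families of abelian varieties `A_{ij}`, `1 ≤ j ≤ m_i`,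
over an open part of the line, near a rational point which may be a point of degeneration. Let
`Gal(P_i)` be the group of the matrices `g` such that `P_i` and `g P_i` satisfy the same polynomial
relations over `ℂ(x)`: the Zariski closure of the monodromy group, if `P_i` is a fundamental matrix of
the Gauss-Manin system.

**Local monodromy.** `Gal(P_i)` is block diagonal, respects the polarisations of the pieces up to
characters, acts strongly irreducibly on the pieces, and no two pieces are isomorphic up to scalars.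
For every piece there is an element `g` of `Gal(P_i)`, with `(g - 1) ^ 2 = 0` (the local monodromy
around a point of semistable reduction), such that the rank of `g - 1` on the piece and the
multiplicities of the nonzero eigenvalues of the `(g - 1) (g' - 1)`, for other elements `g'` of this
type, are coprime, or contain the number two (or the conjugates of some `g` act irreducibly on the
piece and the defects of all elements together are coprime). Nothing is supposed about the action of
`g` on the other pieces, and there is no assumption that `Gal(P_i)` contains anything big.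

**Theorem.** Let the degree `d` and the degree `D` of the number fields be given. For almost all tuples
of integers `t` (all but `C N^(k-1) ∑_i (1 + N / (x_i + N)^c)` of the tuples in the box
`∏_i (x_i, x_i + N]`), where the exceptional set depends on the number field `K` and on the constants
`C₀` but `c > 0` and `C` do not, every polynomial relation `F` of degree at most `d` over `K`, without
any bound for its height, between the entries of `C₀ ⊕ P_1(1 / t_1) ⊕ … ⊕ P_k(1 / t_k)`, has the
following properties.

1. (Relative form) `F` vanishes at `C₀ ⊕ X_1 ⊕ … ⊕ X_k` for all matrices `X_i` which respect the pieces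
   and satisfy the Riemann relations `X_i Q_i X_i^t = μ_ij B_i` (on the piece `j`) which the period
   matrices satisfy. So in degree at most `d` all relations between the periods of the fibres, relative
   to the arbitrary constants `C₀`, are consequences of the Riemann relations.
2. (Absolute form) If `C₀ = 2πi`, and the polarisations `B_i`, `Q_i` have entries in `K` and the
   period matrices satisfy `P_i Q_i P_i^t = (2πi)^(w_ij) B_i` on the pieces, then `F` vanishes
   at all points of the torsor of all `z ⊕ X_1 ⊕ … ⊕ X_k`, `z ≠ 0`, with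
   `X_i Q_i X_i^t = z^(w_ij) B_i` on the pieces, of dimension `1 + ∑_i ∑_j dim Sp(n_ij)`. This is the
   dimension of the Mumford-Tate group of the very general fibre: Grothendieck's period conjecture is
   true for almost all fibres, up to any given degree of the relations.

Proof. `Gal(P_i)` contains the product of the symplectic groups of the pieces: its Lie algebra, the
Lie algebra of the derivations which preserve the functional relations, contains the logarithms of the
quadratic unipotent elements and is `sp` on every piece, and the theorem of Goursat, Kolchin and Ribet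
(in the version of `MP_90d181_ag`) applies. The theorem `Pool.Agent.Y120.R.gx` of helper120 gives that
outside of the exceptional set all relations of degree at most `d` are inherited by the orbits. In the
absolute case one moves `2πi` to all transcendental numbers by automorphisms of `ℂ` over `K`, and
uses the curves `(s² z, s^w X)`.
-/

set_option autoImplicit false

open PowerSeries Filter
open scoped Matrix

namespace Pool.Agent.Results.MP_cbf1af_ag.LocalMonodromyRelations

open Pool.Agent.V11219.Per

theorem iter_eq {r : ℕ} (T : Polynomial ℤ) (A : Fin r → Fin r → Polynomial ℤ) (s : ℕ) :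
    iter T A s = Pool.Agent.Y120.GH.itm T A s := by
  induction s with
  | zero => rfl
  | succ s ih =>
    funext i j
    rw [iter, Pool.Agent.Y120.GH.itm, ih]

theorem qu_eq {r : ℕ} {T : Polynomial ℤ} {A : Fin r → Fin r → Polynomial ℤ}
    (h : QuasiUnipotent T A) : Pool.Agent.Y120.GH.QU0 T A := by
  obtain ⟨e, M, K, Φ, he, hdet, hc, heq⟩ := h
  have he0 : e ≠ 0 := by omega
  refine ⟨e, he0, M, K, Φ, hc, fun i j n => ?_, hdet⟩
  have h1 := heq i j n
  simp only [atPow] at h1
  rw [Pool.Agent.Y120.GH.expand_poly he0]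
  simp only [Pool.Agent.Y120.GH.expand_poly he0]
  exact h1

theorem fam {r : ℕ} {T : Polynomial ℤ} {A : Fin r → Fin r → Polynomial ℤ}
    {h : Fin r → PowerSeries ℚ} (hG : GFamily T A h) (δ : ℕ) : Pool.Agent.Y120.R.Fam δ h :=
  ⟨hG.size, Pool.Agent.Y120.GH.family_main hG.T_ne hG.ode hG.size hG.den (by
    obtain ⟨C, hC⟩ := hG.galochkin
    refine ⟨C, fun m => ?_⟩
    obtain ⟨d, h1, h2, h3⟩ := hC m
    refine ⟨d, h1, h2, fun s hs i' j' => ?_⟩
    rw [← iter_eq]
    exact h3 s hs i' j') (qu_eq hG.regular) δ⟩

section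
variable {k r : ℕ} {n m : Fin k → ℕ} {ρ : Fin k → ℕ}

/-- the block matrix `x ⊕ X_1 ⊕ … ⊕ X_k` -/
noncomputable def total (x : Matrix (Fin r) (Fin r) ℂ) (X : ∀ i, Matrix (Fin (n i)) (Fin (n i)) ℂ) :
    Matrix (Fin r ⊕ Σ i, Fin (n i)) (Fin r ⊕ Σ i, Fin (n i)) ℂ :=
  Matrix.fromBlocks x 0 0 (Matrix.blockDiagonal' X)

/-- The matrices `X_i` respect the pieces and satisfy the Riemann relations `X_i Q_i X_i^t = μ_ij B_i`
on the pieces. -/
def Riemann (β : ∀ i, Fin (n i) → Fin (m i)) (B Q : ∀ i, Matrix (Fin (n i)) (Fin (n i)) ℂ)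
    (μ : ∀ i, Fin (m i) → ℂ) (X : ∀ i, Matrix (Fin (n i)) (Fin (n i)) ℂ) : Prop :=
  ∀ i, BlockDiagonal (β i) (X i) ∧ ∀ a b, (X i * Q i * (X i)ᵀ) a b = μ i (β i a) * B i a b

/-- `F` is a polynomial relation of degree at most `d` with coefficients in `K` between the entries of
the matrix `y`. -/
def IsRelation {I : Type} (K : Subfield ℂ) (d : ℕ) (F : MvPolynomial (I × I) ℂ) (y : Matrix I I ℂ) :
    Prop :=
  (∀ s, F.coeff s ∈ K) ∧ F.totalDegree ≤ d ∧ MvPolynomial.eval (fun b => y b.1 b.2) F = 0

/-- The conclusion for one tuple; `Z i` is the period matrix of the fibre of the `i`-th family. -/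
def Good (K : Subfield ℂ) (d : ℕ) (C₀ : Matrix (Fin r) (Fin r) ℂ)
    (h : ∀ i, Fin (ρ i) → PowerSeries ℚ)
    (P : ∀ i, Fin (n i) → Fin (n i) → MvPolynomial (Option (Fin (ρ i))) ℂ)
    (Z : ∀ i, Matrix (Fin (n i)) (Fin (n i)) ℂ) : Prop :=
  ∀ (m : Fin k → ℕ) (β : ∀ i, Fin (n i) → Fin (m i)) (B Q : ∀ i, Matrix (Fin (n i)) (Fin (n i)) ℂ),
  (∀ i, LocalMonodromy (β i) (B i) (Gal (h i) (P i))) →
  -- 1: the relative form
  (∀ F, IsRelation K d F (total C₀ Z) → ∀ μ : ∀ i, Fin (m i) → ℂ, (∀ i j, μ i j ≠ 0) →
    Riemann β B Q μ Z → ∀ X, Riemann β B Q μ X → IsRelation K d F (total C₀ X)) ∧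
  -- 2: the absolute form
  (C₀ = (2 * Real.pi * Complex.I : ℂ) • 1 → (∀ i a b, B i a b ∈ K ∧ Q i a b ∈ K) →
    ∀ F, IsRelation K d F (total C₀ Z) → ∀ w : ∀ i, Fin (m i) → ℕ,
    Riemann β B Q (fun i j => (2 * Real.pi * Complex.I : ℂ) ^ w i j) Z →
    ∀ z : ℂ, z ≠ 0 → ∀ X, Riemann β B Q (fun i j => z ^ w i j) X →
      IsRelation K d F (total (z • 1) X))

theorem good_of {K : Subfield ℂ} (hKf : FiniteDimensional ℚ K) {d : ℕ}
    {C₀ : Matrix (Fin r) (Fin r) ℂ} {h : ∀ i, Fin (ρ i) → PowerSeries ℚ}
    {P : ∀ i, Fin (n i) → Fin (n i) → MvPolynomial (Option (Fin (ρ i))) ℂ} {t : Fin k → ℕ}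
    (hg : RelOK K d C₀ h P t) : Good K d C₀ h P fun i => perMat (h i) (P i) (t i : ℝ) := by
  have hKalg : ∀ x ∈ K, IsAlgebraic ℚ x := by
    intro x hx
    have : NumberField K := { to_charZero := inferInstance, to_finiteDimensional := hKf }
    have h6 : IsAlgebraic ℚ (⟨x, hx⟩ : K) := Algebra.IsAlgebraic.isAlgebraic _
    exact h6.algebraMap (A := ℂ)
  intro m β B Q hL
  refine ⟨?_, ?_⟩
  · intro F hF μ hμ hZ X hX
    exact ⟨hF.1, hF.2.1, relative hg hL hF.1 hF.2.1 hF.2.2 hμ hZ hX⟩
  · intro hC₀ hBQ F hF w hZ z hz X hX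
    subst hC₀
    exact ⟨hF.1, hF.2.1, absolute_rel hKalg hg hL hF.1 hF.2.1 hF.2.2 (fun i a b => (hBQ i a b).1)
      (fun i a b => (hBQ i a b).2) hZ hz hX⟩

end

/-- **The theorem.** -/
theorem result (k D d e r : ℕ) (ρ n : Fin k → ℕ) (T : Fin k → Polynomial ℤ)
    (A : ∀ i, Fin (ρ i) → Fin (ρ i) → Polynomial ℤ) (h : ∀ i, Fin (ρ i) → PowerSeries ℚ)
    (hG : ∀ i, GFamily (T i) (A i) (h i)) :
    ∃ c C : ℝ, 0 < c ∧ 0 ≤ C ∧
      ∀ P : ∀ i, Fin (n i) → Fin (n i) → MvPolynomial (Option (Fin (ρ i))) ℂ,
      (∀ i a b, (P i a b).totalDegree ≤ e) →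
      ∀ K : Subfield ℂ, FiniteDimensional ℚ K → Module.finrank ℚ K ≤ D →
      ∀ C₀ : Matrix (Fin r) (Fin r) ℂ, ∀ (x : Fin k → ℕ) (N : ℕ), 1 ≤ N →
      (({t : Fin k → ℕ | (∀ i, x i < t i ∧ t i ≤ x i + N) ∧
        ¬ Good K d C₀ h P fun i => perMat (h i) (P i) (t i : ℝ)}.ncard : ℕ) : ℝ) ≤
        C * (N : ℝ) ^ (k - 1) * ∑ i, (1 + N / ((x i : ℝ) + N) ^ c) := by
  classical
  obtain ⟨c, C, hc, hC, hmain⟩ := rel_main k D d e r ρ n h fun i δ => fam (hG i) δ
  refine ⟨c, C, hc, hC, ?_⟩
  intro P hP K hKf hKD C₀ x N hN
  set E := {t : Fin k → ℕ | (∀ i, x i < t i ∧ t i ≤ x i + N) ∧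
      ¬ Good K d C₀ h P fun i => perMat (h i) (P i) (t i : ℝ)} with hE
  have hfin : E.Finite := by
    refine (Set.finite_Iic (fun i : Fin k => x i + N)).subset ?_
    intro t ht i
    exact (ht.1 i).2
  rw [Set.ncard_eq_toFinset_card E hfin]
  refine hmain P hP K hKf hKD C₀ x N hN _ fun t ht => ?_
  have ht' : t ∈ E := hfin.mem_toFinset.1 ht
  exact ⟨ht'.1, fun hgood => ht'.2 (good_of hKf hgood)⟩

end Pool.Agent.Results.MP_cbf1af_ag.LocalMonodromyRelations
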