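import Pool.Agent.Results.MP_cbf1af_ag.AllHyperellipticCurves
import Pool.Agent.H223.NP.Gen2

/-!
# The relations between the periods of products of hyperelliptic curves at all algebraic points close to almost every point

Let `n i` be even numbers (`i` in a finite nonempty set) and `d` the sum of the `n i + 1`. A point `e` of `Conf n` is a system
of branch points `e i r`, `r ≤ n i`, with increasing real parts for every `i`; `pm n e i` is the period matrix of the curve
`y² = ∏ (x - e i r)` (an analytic function of `e`, given by the usual integrals if the branch points are real), and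
`torsor n e` is the set of the `(Y, μ)` with the bilinear relations of Legendre and Riemann, which contains `(pm n e, π)`:
the period torsor of the product of the curves for general `e`. (See the starting file `AllHyperellipticCurves`, which has
few hypersurfaces of unknown exceptional points.)

**Theorem.** There is a set `E` in `ℂ ^ d` of Hausdorff dimension at most `2 d - 2` such that for all points `z` of `Conf n`
outside of `E`, all exponents `w > 0` (arbitrarily small), all number fields `K` and all `k`, for large `T`, at ALL points `e`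
with coordinates in `K` of height at most `T` at distance at most `T ^ (-w)` from `z` all relations of degree at most `k` with
coefficients in the integers of `K` of size at most `T ^ k` between the periods and the powers of `π` hold on the whole torsor,
and those between the periods and any given numbers `ξ a` hold at the `(Y, π)` in the torsor. For real branch points the same
holds outside of a set in `ℝ ^ d` of dimension at most `d - 1`: near almost every real system of branch points, and near almost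
every complex one, the period conjecture in bounded degree and height holds for ALL products of hyperelliptic curves over `K`.
-/

set_option autoImplicit false
set_option linter.unusedSectionVars false

namespace Pool.Agent.Results.MP_cbf1af_ag.NearEveryPoint

open Filter Matrix NumberField Pool.Agent Pool.Agent.Y890.MV Pool.Agent.Y890.HE
open scoped ENNReal

variable {ι : Type} [Fintype ι] [DecidableEq ι]

/-- ALL points `e` with coordinates in `K` of height at most `T` at distance at most `T ^ (-w)` from `z` are in `Conf n`, and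
the relations of degree at most `k` with coefficients in the integers of `K` of size at most `T ^ k` between the periods at `e`
and the powers of `π`, respectively the numbers `ξ a`, `a < k`, hold on the torsor. -/
def GoodNear (n : ι → ℕ) (ξ : ℕ → ℂ) (z : (Σ i, Fin (n i + 1)) → ℂ) (w : ℝ) (K : Type) [Field K] [NumberField K]
    (io : K →+* ℂ) (k : ℕ) (T : ℝ) : Prop :=
  ∀ e : (Σ i, Fin (n i + 1)) → K, (∀ j, Y120.HtLe K T (e j)) → (∀ j, ‖io (e j) - z j‖ ≤ T ^ (-w)) →
    (fun j => io (e j)) ∈ Conf n ∧ Generic n k K io (fun a : Fin k => ξ a) T (fun j => io (e j))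

theorem exc_sub {n : ι → ℕ} (hn : ∀ i, Even (n i)) {k₀ : ℕ} (hk₀ : 0 < k₀) (k : ℕ) (K : Type) [Field K] [NumberField K]
    (io : K →+* ℂ) (ξ : Fin k → ℂ) (T : ℝ) :
    {e : (Σ i, Fin (n i + 1)) → K | (∀ j, Y120.HtLe K T (e j)) ∧ (fun j => io (e j)) ∈ InnerM (Conf n) k₀ ∧
      ¬ ((fun j => io (e j)) ∈ Conf n ∧ Generic n k K io ξ T (fun j => io (e j)))} ⊆
      ExcT k (fSig (fun i => fH (n i))) (TSig (fun i => TorH (n i))) (InnerM (Conf n) k₀) K io ξ (k : ℝ) T ∪
      ExcT k (fSig (fun i => fH (n i))) (TSig (fun i => TorH (n i))) (InnerM (Conf n) k₀) K io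
        (fun a : Fin k => (Real.pi : ℂ) ^ (a : ℕ)) (k : ℝ) T := by
  classical
  rintro e ⟨h1, h2, h3⟩
  by_contra hcon
  rw [Set.mem_union, not_or] at hcon
  obtain ⟨h4, h5⟩ := hcon
  apply h3
  refine ⟨innerM_sub _ hk₀ h2, ?_⟩
  intro c hc
  have hc' : ∀ l i (φ : K →+* ℂ), ‖φ (c l i : K)‖ ≤ T ^ (k : ℝ) := by
    intro l i φ
    rw [Real.rpow_natCast]
    exact hc l i φ
  have hgen : ∀ (w : Fin k → ℂ) (Y : ∀ i, Matrix (Fin (n i)) (Fin (n i)) ℂ),
      poly n (fun l a => io (c l a : K)) w Y =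
        ∑ l, (∑ a, w a * io (c l a : K)) * ∏ y, unM Y y ^ (l y : ℕ) := fun _ _ => rfl
  have key : ∀ w : Fin k → ℂ, e ∉ ExcT k (fSig (fun i => fH (n i))) (TSig (fun i => TorH (n i)))
      (InnerM (Conf n) k₀) K io w (k : ℝ) T → poly n (fun l a => io (c l a : K)) w (pm n (fun j => io (e j))) = 0 →
      ∀ Y ∈ TSig (fun i => TorH (n i)) (fun j => io (e j)),
        ∑ l, (∑ a, w a * io (c l a : K)) * ∏ y, Y y ^ (l y : ℕ) = 0 := by
    intro w hw hw0
    by_contra hne
    exact hw ⟨h1, h2, c, hc', hw0, hne⟩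
  refine ⟨fun h6 Y hY => ?_, fun h6 => ?_⟩
  · rw [torsor_iff] at hY
    rw [hgen]
    exact key ξ h4 h6 (unM Y) hY.2
  · rintro ⟨Y, μ⟩ hp
    rw [torsor_iff] at hp
    rw [hgen]
    exact full hn io e (innerM_sub _ hk₀ h2) (fun l a => (c l a : K))
      (key (fun a => (Real.pi : ℂ) ^ (a : ℕ)) h5 h6) hp.1 (unM Y) hp.2

theorem cover [Nonempty ι] (n : ι → ℕ) (hn : ∀ i, Even (n i)) (ξ : ℕ → ℂ) (k₀ k m : ℕ) (ε : ℝ) (hk₀ : 0 < k₀)
    (hε : 0 < ε) : ∃ (D : ℕ) (C T₀ : ℝ), 0 ≤ C ∧ 2 ≤ T₀ ∧
      ∀ (K : Type) [Field K] [NumberField K], Module.finrank ℚ K ≤ m → ∀ (io : K →+* ℂ) (T : ℝ),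
        T₀ ≤ T → Pool.Agent.Y124.Cov D ⌊C * T ^ ε⌋₊ ((fun (s : (Σ i, Fin (n i + 1)) → K) i => io (s i)) ''
          {s | (∀ j, Y120.HtLe K T (s j)) ∧ (fun j => io (s j)) ∈ InnerM (Conf n) k₀ ∧
            ¬ ((fun j => io (s j)) ∈ Conf n ∧ Generic n k K io (fun a : Fin k => ξ a) T (fun j => io (s j)))}) := by
  classical
  obtain ⟨i0⟩ := ‹Nonempty ι›
  haveI : Nonempty (Σ i, Fin (n i + 1)) := ⟨⟨i0, 0⟩⟩
  have hUo : IsOpen (USig (fun i => Ord (n i))) := USig_open fun i => Ord_open (n i)
  have hUc : IsPreconnected (USig (fun i => Ord (n i))) := (USig_convex fun i => Ord_convex (n i)).isPreconnected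
  have hUn : (USig (fun i => Ord (n i))).Nonempty := USig_nonempty fun i => Ord_nonempty (n i)
  have hf : ∀ q, AnalyticOnNhd ℂ (fSig (fun i => fH (n i)) q) (USig (fun i => Ord (n i))) :=
    fSig_an fun i s => fH_an s
  have hT : TorM (USig (fun i => Ord (n i))) (fSig (fun i => fH (n i))) (TSig (fun i => TorH (n i))) :=
    TorM.sig fun i => torH (hn i)
  obtain ⟨D, C, T₀, hC, hT₀, H⟩ := excT_cov hUc hUo hUn hf hT (InnerM (Conf n) k₀) (innerM_compact _ _)
    (innerM_sub _ hk₀) k (Fin k) m (k : ℝ) ε hε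
  refine ⟨D, 2 * C, T₀, by positivity, hT₀, fun K _ _ hK io T hT0 => ?_⟩
  have h1 := (H K hK io (fun a : Fin k => ξ a) T hT0).union (H K hK io (fun a : Fin k => (Real.pi : ℂ) ^ (a : ℕ)) T hT0)
  rw [← Set.image_union] at h1
  refine h1.mono le_rfl ?_ (Set.image_mono (exc_sub hn hk₀ k K io (fun a : Fin k => ξ a) T))
  have h2 : (0 : ℝ) ≤ C * T ^ ε := by
    have : (0 : ℝ) < T := by linarith
    positivity
  apply Nat.le_floor
  push_cast
  have h3 := Nat.floor_le h2
  linarith

theorem mono (n : ι → ℕ) (ξ : ℕ → ℂ) (k : ℕ) (K : Type) [Field K] [NumberField K] (io : K →+* ℂ)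
    (s : (Σ i, Fin (n i + 1)) → K) (T T' : ℝ) (hT : 1 ≤ T) (hTT : T ≤ T')
    (h : ¬ ((fun j => io (s j)) ∈ Conf n ∧ Generic n k K io (fun a : Fin k => ξ a) T (fun j => io (s j)))) :
    ¬ ((fun j => io (s j)) ∈ Conf n ∧ Generic n k K io (fun a : Fin k => ξ a) T' (fun j => io (s j))) := by
  rintro ⟨h1, h2⟩
  exact h ⟨h1, fun c hc => h2 c fun l a φ => (hc l a φ).trans (pow_le_pow_left₀ (by linarith) hTT k)⟩

theorem conf_open (n : ι → ℕ) : IsOpen (Conf n) := by
  rw [conf_eq]
  exact USig_open fun i => Ord_open (n i)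

/-- **Theorem.** Let `n i` be even numbers and `ξ a` any complex numbers; `d` is the sum of the `n i + 1`.
(1) `(pm n e, π)` is a point of `torsor n e` for all `e` in `Conf n`.
(2) There is a set `E` in `ℂ ^ d` of Hausdorff dimension at most `2 (d - 1)` such that for all `z` in `Conf n` outside of `E`,
all `w > 0`, all number fields `K ⊂ ℂ` and all `k`, the property `GoodNear n ξ z w K k T` holds for all large `T`.
(3) There is a set `E` in `ℝ ^ d` of Hausdorff dimension at most `d - 1` such that for all real `z` with `z i 0 < z i 1 < …`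
outside of `E`, all `w > 0`, all number fields `K ⊂ ℝ` and all `k`, the property `GoodNear n ξ z w K k T` holds for all
large `T`. -/
theorem result [Nonempty ι] (n : ι → ℕ) (hn : ∀ i, Even (n i)) (ξ : ℕ → ℂ) :
    (∀ e ∈ Conf n, (pm n e, (Real.pi : ℂ)) ∈ torsor n e) ∧
    (∃ E : Set ((Σ i, Fin (n i + 1)) → ℂ), dimH E ≤ ((2 * (Fintype.card (Σ i, Fin (n i + 1)) - 1) : ℕ) : ℝ≥0∞) ∧
      ∀ z ∈ Conf n, z ∉ E → ∀ w : ℝ, 0 < w → ∀ (K : IntermediateField ℚ ℂ) [NumberField K], ∀ k : ℕ,
        ∀ᶠ T : ℝ in atTop, GoodNear n ξ z w K (algebraMap K ℂ) k T) ∧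
    ∃ E : Set ((Σ i, Fin (n i + 1)) → ℝ), dimH E ≤ ((Fintype.card (Σ i, Fin (n i + 1)) - 1 : ℕ) : ℝ≥0∞) ∧
      ∀ z : (Σ i, Fin (n i + 1)) → ℝ, (∀ i, StrictMono fun r => z ⟨i, r⟩) → z ∉ E → ∀ w : ℝ, 0 < w →
        ∀ (K : IntermediateField ℚ ℝ) [NumberField K], ∀ k : ℕ, ∀ᶠ T : ℝ in atTop,
          GoodNear n ξ (fun j => (z j : ℂ)) w K (Complex.ofRealHom.comp (algebraMap K ℝ)) k T := by
  classical
  refine ⟨fun _ he => pm_mem hn he, ?_, ?_⟩
  · obtain ⟨E, hE, h⟩ := Pool.Agent.H223.NP.near_gen (𝕜 := ℂ) (RingHom.id ℂ) (fun _ => rfl)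
      (fun P hP => ⟨P, hP, le_rfl, fun x hx => by simpa [MvPolynomial.aeval_eq_eval] using hx⟩) (conf_open n)
      (fun k K _ _ io s T => ¬ ((fun j => io (s j)) ∈ Conf n ∧
        Generic n k K io (fun a : Fin k => ξ a) T (fun j => io (s j))))
      (fun k K _ _ io s T T' => mono n ξ k K io s T T') (fun k₀ k m ε hk₀ hε => cover n hn ξ k₀ k m ε hk₀ hε)
    refine ⟨E, by simpa using hE, fun z hz hzE w hw K _ k => ?_⟩
    obtain ⟨T₁, hT₁⟩ := h z hzE hz K w k hw
    refine Filter.eventually_atTop.2 ⟨T₁, fun T hT s hs hsz => ?_⟩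
    exact not_not.1 (hT₁ T hT s hs hsz)
  · obtain ⟨E, hE, h⟩ := Pool.Agent.H223.NP.near_gen (𝕜 := ℝ) Complex.ofRealHom
      (fun a => (Complex.norm_real a).symm) (fun P hP => Pool.Agent.H223.NP.real_part P hP) (conf_open n)
      (fun k K _ _ io s T => ¬ ((fun j => io (s j)) ∈ Conf n ∧
        Generic n k K io (fun a : Fin k => ξ a) T (fun j => io (s j))))
      (fun k K _ _ io s T T' => mono n ξ k K io s T T') (fun k₀ k m ε hk₀ hε => cover n hn ξ k₀ k m ε hk₀ hε)
    refine ⟨E, by simpa using hE, fun z hz hzE w hw K _ k => ?_⟩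
    have hz' : (fun j => Complex.ofRealHom (z j)) ∈ Conf n := fun i r s hrs => by
      simpa using hz i hrs
    obtain ⟨T₁, hT₁⟩ := h z hzE hz' K w k hw
    refine Filter.eventually_atTop.2 ⟨T₁, fun T hT s hs hsz => ?_⟩
    refine not_not.1 (hT₁ T hT s hs fun j => ?_)
    refine le_of_eq_of_le ?_ (hsz j)
    rw [← Complex.norm_real, Complex.ofReal_sub]
    rfl

end Pool.Agent.Results.MP_cbf1af_ag.NearEveryPoint
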