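import Pool.Agent.V11219.TdFun

/-!
# Grothendieck's period conjecture in bounded degree for all objects of the tensor category generated by
almost all fibres of families with local monodromy conditions

Let `h_i`, `1 ≤ i ≤ k`, be families of G-functions over `ℚ` (with the conditions of Siegel and
Galochkin, regular singular with rational exponents at `0`) and let `P_i(x)` be square matrices of size
`n_i` whose entries are polynomials with complex coefficients in `log x` and in the functions
`h_{i,l}(x)`: the period matrices of families of motives `M_{i,x} = ⨁_j M_{ij,x}` over an open part of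
the line, near a rational point which may be a point of degeneration (for example `H^1` of families of
abelian varieties or `H^n` of families of projective varieties of odd dimension `n`). Let `Gal(P_i)` be
the group of the matrices `g` such that `P_i` and `g P_i` satisfy the same polynomial relations over
`ℂ(x)` (the Zariski closure of the monodromy group, if `P_i` is a fundamental matrix of a system).

**Condition** (`LocalMonodromy`). `Gal(P_i)` is block diagonal (with the pieces `M_ij`), respects
alternating forms (the polarisations) up to characters, acts strongly irreducibly on the pieces, no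
two of which are isomorphic up to scalars; for every piece there is an element `g`, with
`(g - 1) ^ 2 = 0` (the local monodromy around a point of semistable reduction), such that the rank
of `g - 1` on the piece and the multiplicities of the nonzero eigenvalues of the `(g - 1) (g' - 1)`,
for other elements `g'` of this type, are coprime, or contain the number two (or the variant with
several elements). Then the Mumford-Tate groups of the general fibres are, up to the weights, the
product `G = ∏_ij Sp_{n_ij}` of the isometry groups of the pieces.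

**Objects of the tensor category.** Let `C₀` be any matrix of complex numbers (for example the diagonal
matrix with the entries `2πi` and `(2πi)^(-1)`, or the period matrix of any other motive `M_0`). An
object `N` of the tensor category generated by `M_0` and the fibres `M_i` at `x_i = 1 / t_i` has a
period matrix `f(C₀, P_1(1 / t_1), …, P_k(1 / t_k))`, where the entries of the `l × l` matrix `f` are
polynomials over a number field, and the group `G` acts on its Betti realisation by a matrix `R(g)` of
polynomials in the entries of `g = (g_i)`: `f(C₀, g Z) = R(g) f(C₀, Z)`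
(`PeriodMatrix`). Let `rank R` be the dimension of the image of the Lie algebra of `G` under the
derivative of `R` at `1`: the dimension of the algebraic group `R(G)`, the Mumford-Tate group of `N`
over `M_0`. If the derivative is injective (for example if `R` is faithful), then `rank R` is
`∑_ij n_ij (n_ij + 1) / 2`, where `n_ij` is the dimension of the piece `M_ij`.

**Theorem.** For every `D`, for almost all tuples of integers `t` (all but
`C N^(k-1) ∑_i (1 + N / (x_i + N)^c)` of the tuples in the box `∏_i (x_i, x_i + N]`) the following holds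
for all such `f` of degree at most `D` (all `l`, all `R`) at once: there is a set `V` of `rank R` entries
of the period matrix `f(C₀, Z)` of `N` such that for all number fields `K` of degree at most `D` which
contain the coefficients of `f`

1. the periods in `V` satisfy no nonzero polynomial relation of degree at most `D` whose coefficients
   are values of polynomials of degree at most `D` over `K` at the entries of `C₀`;
2. if `2πi` is an entry of `C₀` then `2πi` and the periods in `V` satisfy no nonzero polynomial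
   relation of degree at most `D` over `K`.

So in bounded degree the transcendence degree of `K(2πi, periods of N)` is at least the dimension
`1 + rank R` of the Mumford-Tate group predicted by Grothendieck's conjecture, for all objects `N` of
the tensor category generated by almost all fibres: for example for the `H^j(Y)`, for all `j` and all
products `Y` of powers of the fibres, if the `M_i` are the `H^1` of families of abelian varieties. The
same is true relative to any other motive `M_0`.
Moreover there are `D(N) → ∞` and `ε(N) → 0` such that for all but `ε(N) N^k` tuples `t` in `[1, N]^k`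
this is true with `D(N)` instead of `D`.

Proof. By the theorem on extremal elements (see `MP_90d181_ag`) the identity component of `Gal(P_i)`
contains the isometries of the polarisations of the pieces. By the theorem on values of G-functions of
helper120 and the theorem of helper273 on all number fields at once, the relations of bounded degree
of the period point are relations of its translates under this group. A relation `F` between the
entries of `f(C₀, Z)` holds for `f(C₀, (1 + s N) Z)`, for all extremal elements `N` of the Lie algebra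
and all `s`; so the derivative of `F` in the directions of a space of dimension `rank R` is zero. Hence
for suitable `rank R` entries all partial derivatives of a relation between these entries are
relations between them; as their degrees are smaller, an induction shows that there is no nonzero
relation.
-/

set_option autoImplicit false

open PowerSeries Filter
open scoped Matrix

namespace Pool.Agent.Results.MP_cbf1af_ag.TensorCategoryPeriods

open Pool.Agent.V11219.Per

theorem iter_eq {r : ℕ} (T : Polynomial ℤ) (A : Fin r → Fin r → Polynomial ℤ) (s : ℕ) :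
    iter T A s = Pool.Agent.Y120.GH.itm T A s := by
  induction s with
  | zero => rfl
  | succ s ih =>
    funext i j
    rw [iter, Pool.Agent.Y120.GH.itm, ih]

theorem qu_eq {r : ℕ} {T : Polynomial ℤ} {A : Fin r → Fin r → Polynomial ℤ}
    (h : QuasiUnipotent T A) : Pool.Agent.Y120.GH.QU0 T A := by
  obtain ⟨e, M, K, Φ, he, hdet, hc, heq⟩ := h
  have he0 : e ≠ 0 := by omega
  refine ⟨e, he0, M, K, Φ, hc, fun i j n => ?_, hdet⟩
  have h1 := heq i j n
  simp only [atPow] at h1
  rw [Pool.Agent.Y120.GH.expand_poly he0]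
  simp only [Pool.Agent.Y120.GH.expand_poly he0]
  exact h1

theorem fam {r : ℕ} {T : Polynomial ℤ} {A : Fin r → Fin r → Polynomial ℤ}
    {h : Fin r → PowerSeries ℚ} (hG : GFamily T A h) (δ : ℕ) : Pool.Agent.Y120.R.Fam δ h :=
  ⟨hG.size, Pool.Agent.Y120.GH.family_main hG.T_ne hG.ode hG.size hG.den (by
    obtain ⟨C, hC⟩ := hG.galochkin
    refine ⟨C, fun m => ?_⟩
    obtain ⟨d, h1, h2, h3⟩ := hC m
    refine ⟨d, h1, h2, fun s hs i' j' => ?_⟩
    rw [← iter_eq]
    exact h3 s hs i' j') (qu_eq hG.regular) δ⟩

section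
variable {k r l : ℕ} {n ρ : Fin k → ℕ}

/-- The numbers `x v` satisfy no nonzero polynomial relation of degree at most `d` with coefficients in
the set `S`. -/
def NoRelation {J : Type} (S : Set ℂ) (d : ℕ) (x : J → ℂ) : Prop :=
  ∀ F : MvPolynomial J ℂ, F.totalDegree ≤ d → (∀ s, F.coeff s ∈ S) → MvPolynomial.eval x F = 0 → F = 0

/-- The values of the polynomials over `K` of degree at most `d` at the entries of `C₀`. -/
def Values (K : Subfield ℂ) (d : ℕ) (C₀ : Matrix (Fin r) (Fin r) ℂ) : Set ℂ :=
  {x | ∃ R : MvPolynomial (Fin r × Fin r) ℂ, R.totalDegree ≤ d ∧ (∀ s, R.coeff s ∈ K) ∧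
    MvPolynomial.eval (fun b => C₀ b.1 b.2) R = x}

/-- The indices of the rows of the matrix `x ⊕ Y_1 ⊕ … ⊕ Y_k`. -/
abbrev Idx (r : ℕ) (n : Fin k → ℕ) : Type := Fin r ⊕ Σ i, Fin (n i)

/-- The entries of the matrix `x ⊕ Y_1 ⊕ … ⊕ Y_k`. -/
noncomputable def total (x : Matrix (Fin r) (Fin r) ℂ) (Y : ∀ i, Matrix (Fin (n i)) (Fin (n i)) ℂ) :
    Idx r n × Idx r n → ℂ :=
  fun b => Matrix.fromBlocks x 0 0 (Matrix.blockDiagonal' Y) b.1 b.2

/-- The entries of the matrices `Y_i`. -/
def entries (Y : ∀ i, Matrix (Fin (n i)) (Fin (n i)) ℂ) : (Σ i, Fin (n i) × Fin (n i)) → ℂ :=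
  fun b => Y b.1 b.2.1 b.2.2

/-- The Lie algebra of the group of isometries of the forms `B_i` which respect the pieces. -/
def InLie {m : Fin k → ℕ} (β : ∀ i, Fin (n i) → Fin (m i))
    (B N : ∀ i, Matrix (Fin (n i)) (Fin (n i)) ℂ) : Prop :=
  ∀ i, BlockDiagonal (β i) (N i) ∧ N i * B i + B i * (N i)ᵀ = 0

/-- `f(C₀, Z)` is invertible and `f(C₀, g Z) = R(g) f(C₀, Z)` for all isometries `g = (g_i)` of the forms
`B_i` which respect the pieces. -/
def PeriodMatrix {m : Fin k → ℕ} (β : ∀ i, Fin (n i) → Fin (m i))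
    (B Z : ∀ i, Matrix (Fin (n i)) (Fin (n i)) ℂ) (C₀ : Matrix (Fin r) (Fin r) ℂ)
    (f : Fin l × Fin l → MvPolynomial (Idx r n × Idx r n) ℂ)
    (R : Fin l × Fin l → MvPolynomial (Σ i, Fin (n i) × Fin (n i)) ℂ) : Prop :=
  IsUnit (Matrix.of fun a b => MvPolynomial.eval (total C₀ Z) (f (a, b))) ∧
  ∀ g : ∀ i, Matrix (Fin (n i)) (Fin (n i)) ℂ, (∀ i, Isometry (β i) (B i) (g i)) →
    Matrix.of (fun a b => MvPolynomial.eval (total C₀ fun i => g i * Z i) (f (a, b))) =
      Matrix.of (fun a b => MvPolynomial.eval (entries g) (R (a, b))) *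
        Matrix.of (fun a b => MvPolynomial.eval (total C₀ Z) (f (a, b)))

/-- The derivative of `R` at `1` in the direction of `N`. -/
noncomputable def differential (R : Fin l × Fin l → MvPolynomial (Σ i, Fin (n i) × Fin (n i)) ℂ)
    (N : ∀ i, Matrix (Fin (n i)) (Fin (n i)) ℂ) (x : Fin l × Fin l) : ℂ :=
  ∑ b, MvPolynomial.eval (entries 1) (MvPolynomial.pderiv b (R x)) * entries N b

/-- The dimension of the image of the Lie algebra. -/
noncomputable def rank {m : Fin k → ℕ} (β : ∀ i, Fin (n i) → Fin (m i))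
    (B : ∀ i, Matrix (Fin (n i)) (Fin (n i)) ℂ)
    (R : Fin l × Fin l → MvPolynomial (Σ i, Fin (n i) × Fin (n i)) ℂ) : ℕ :=
  Module.finrank ℂ (Submodule.span ℂ {v : Fin l × Fin l → ℂ | ∃ N, InLie β B N ∧
    ∀ x, v x = differential R N x})

/-- The dimension `∑_ij n_ij (n_ij + 1) / 2`. -/
def dimension {m : Fin k → ℕ} (β : ∀ i, Fin (n i) → Fin (m i)) : ℕ :=
  ∑ i, ∑ j, (Finset.univ.filter fun a => β i a = j).card *
    ((Finset.univ.filter fun a => β i a = j).card + 1) / 2

/-- The conclusion for one tuple; `Z i` is the period matrix of the fibre of the `i`-th family. -/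
def Good (D : ℕ) (C₀ : Matrix (Fin r) (Fin r) ℂ) (h : ∀ i, Fin (ρ i) → PowerSeries ℚ)
    (P : ∀ i, Fin (n i) → Fin (n i) → MvPolynomial (Option (Fin (ρ i))) ℂ)
    (Z : ∀ i, Matrix (Fin (n i)) (Fin (n i)) ℂ) : Prop :=
  ∀ (m : Fin k → ℕ) (β : ∀ i, Fin (n i) → Fin (m i)) (B : ∀ i, Matrix (Fin (n i)) (Fin (n i)) ℂ),
  (∀ i, LocalMonodromy (β i) (B i) (Gal (h i) (P i))) →
  ∀ (l : ℕ) (f : Fin l × Fin l → MvPolynomial (Idx r n × Idx r n) ℂ)
    (R : Fin l × Fin l → MvPolynomial (Σ i, Fin (n i) × Fin (n i)) ℂ),
  (∀ x, (f x).totalDegree ≤ D) → PeriodMatrix β B Z C₀ f R →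
  -- `V` is a set of entries of the period matrix `f(C₀, Z)`
  ∃ V : Finset (Fin l × Fin l), V.card = rank β B R ∧
  ((∀ N, InLie β B N → differential R N = 0 → N = 0) → V.card = dimension β) ∧
  ∀ K : Subfield ℂ, FiniteDimensional ℚ K → Module.finrank ℚ K ≤ D → (∀ x s, (f x).coeff s ∈ K) →
  -- 1: the relative form
  NoRelation (Values K D C₀) D (fun v : V => MvPolynomial.eval (total C₀ Z) (f v)) ∧
  -- 2: together with `2πi`
  ((∃ a b, C₀ a b = 2 * Real.pi * Complex.I) → NoRelation (K : Set ℂ) D
    (fun o : Option V => o.elim (2 * Real.pi * Complex.I : ℂ)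
      fun v : V => MvPolynomial.eval (total C₀ Z) (f v)))

theorem rank_inj {m : Fin k → ℕ} {β : ∀ i, Fin (n i) → Fin (m i)}
    {B : ∀ i, Matrix (Fin (n i)) (Fin (n i)) ℂ} (hB : ∀ i, OrthogonalSum (β i) (B i))
    {R : Fin l × Fin l → MvPolynomial (Σ i, Fin (n i) × Fin (n i)) ℂ}
    (hR : ∀ N, InLie β B N → differential R N = 0 → N = 0) : rank β B R = dimension β := by
  classical
  let dR : (∀ i, Matrix (Fin (n i)) (Fin (n i)) ℂ) →ₗ[ℂ] (Fin l × Fin l → ℂ) :=
    { toFun := fun N x => differential R N x
      map_add' := fun N N' => by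
        funext x
        exact Pool.Agent.V11219.Td.dv_add (entries 1) (R x) (entries N) (entries N')
      map_smul' := fun t N => by
        funext x
        exact Pool.Agent.V11219.Td.dv_smul (entries 1) (R x) t (entries N) }
  have h1 : Submodule.span ℂ {v : Fin l × Fin l → ℂ | ∃ N, InLie β B N ∧
      ∀ x, v x = differential R N x} =
      Submodule.map dR (Pool.Agent.V11219.Td.lieIso β B) := by
    rw [← Submodule.span_eq (Submodule.map dR (Pool.Agent.V11219.Td.lieIso β B))]
    congr 1
    ext v
    constructor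
    · rintro ⟨N, hN, hv⟩
      exact ⟨N, hN, (funext hv).symm⟩
    · rintro ⟨N, hN, rfl⟩
      exact ⟨N, hN, fun x => rfl⟩
  rw [rank, h1, ← LinearMap.range_domRestrict, LinearMap.finrank_range_of_inj,
    Pool.Agent.V11219.Td.finrank_lie (fun i => (hB i).unit) (fun i => (hB i).skew)
      fun i => (hB i).block]
  · rfl
  · rw [injective_iff_map_eq_zero]
    rintro ⟨N, hN⟩ h
    exact Subtype.ext (hR N hN h)

theorem good_of {D : ℕ} {C₀ : Matrix (Fin r) (Fin r) ℂ} {h : ∀ i, Fin (ρ i) → PowerSeries ℚ}
    {P : ∀ i, Fin (n i) → Fin (n i) → MvPolynomial (Option (Fin (ρ i))) ℂ}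
    {t : Fin k → ℕ} (hg : Pool.Agent.V11273.GH.GoodI (D + D * D) C₀ h P t) :
    Good D C₀ h P fun i => perMat (h i) (P i) (t i : ℝ) := by
  classical
  intro m β B hL l f R hfd hf
  have hu := fun i => (hL i).form.unit
  have hs := fun i => (hL i).form.skew
  have hb := fun i => (hL i).form.block
  obtain ⟨V, hV, hind⟩ := Pool.Agent.V11219.Td.exists_indep_fun
    (Z := fun i => perMat (h i) (P i) (t i : ℝ)) hu hs hb C₀ f
  have hVr : V.card = rank β B R := by
    refine hV.trans ?_
    refine Pool.Agent.V11219.Td.rank_equiv hu hs hb (R := R) ?_ hf.1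
    intro g hg a b
    exact congrFun (congrFun (hf.2 (fun i => (g i : Matrix (Fin (n i)) (Fin (n i)) ℂ)) hg) a) b
  refine ⟨V, hVr, fun hR => hVr.trans (rank_inj (fun i => (hL i).form) hR), ?_⟩
  intro K hKf hKD hfK
  have hKalg : ∀ x ∈ K, IsAlgebraic ℚ x := by
    intro x hx
    have : NumberField K := { to_charZero := inferInstance, to_finiteDimensional := hKf }
    have h6 : IsAlgebraic ℚ (⟨x, hx⟩ : K) := Algebra.IsAlgebraic.isAlgebraic _
    exact h6.algebraMap (A := ℂ)
  have hR := Pool.Agent.V11219.Td.relI_of hg hKf (hKD.trans (Nat.le_add_right _ _)) hL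
  have h1 := hind K D hR hfd hfK
  refine ⟨h1, ?_⟩
  rintro ⟨a, b, hab⟩ F hFd hFK hF
  exact Pool.Agent.V11219.Td.abs_indep_fun hKalg hab h1 hFd hFK hF

end

/-- **The theorem.** -/
theorem result (k e r : ℕ) (ρ n : Fin k → ℕ) (T : Fin k → Polynomial ℤ)
    (A : ∀ i, Fin (ρ i) → Fin (ρ i) → Polynomial ℤ) (h : ∀ i, Fin (ρ i) → PowerSeries ℚ)
    (hG : ∀ i, GFamily (T i) (A i) (h i)) :
    -- relations of degree at most `D`
    (∀ D : ℕ, ∃ c C : ℝ, 0 < c ∧ 0 ≤ C ∧
      ∀ P : ∀ i, Fin (n i) → Fin (n i) → MvPolynomial (Option (Fin (ρ i))) ℂ,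
      (∀ i a b, (P i a b).totalDegree ≤ e) → ∀ C₀ : Matrix (Fin r) (Fin r) ℂ,
      ∀ (x : Fin k → ℕ) (N : ℕ), 1 ≤ N →
      (({t : Fin k → ℕ | (∀ i, x i < t i ∧ t i ≤ x i + N) ∧
        ¬ Good D C₀ h P fun i => perMat (h i) (P i) (t i : ℝ)}.ncard : ℕ) : ℝ) ≤
        C * (N : ℝ) ^ (k - 1) * ∑ i, (1 + N / ((x i : ℝ) + N) ^ c)) ∧
    -- relations of degree at most `D N`, which tends to infinity
    (∃ (D : ℕ → ℕ) (δ : ℕ → ℝ), Tendsto D atTop atTop ∧ Tendsto δ atTop (nhds 0) ∧
      ∀ P : ∀ i, Fin (n i) → Fin (n i) → MvPolynomial (Option (Fin (ρ i))) ℂ,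
      (∀ i a b, (P i a b).totalDegree ≤ e) → ∀ C₀ : Matrix (Fin r) (Fin r) ℂ, ∀ N : ℕ, 1 ≤ N →
      (({t : Fin k → ℕ | (∀ i, 1 ≤ t i ∧ t i ≤ N) ∧
        ¬ Good (D N) C₀ h P fun i => perMat (h i) (P i) (t i : ℝ)}.ncard : ℕ) : ℝ) ≤
        δ N * (N : ℝ) ^ k) := by
  classical
  have hmain : ∀ D : ℕ, ∃ c C : ℝ, 0 < c ∧ 0 ≤ C ∧
      ∀ P : ∀ i, Fin (n i) → Fin (n i) → MvPolynomial (Option (Fin (ρ i))) ℂ,
      (∀ i a b, (P i a b).totalDegree ≤ e) → ∀ C₀ : Matrix (Fin r) (Fin r) ℂ,
      ∀ (x : Fin k → ℕ) (N : ℕ), 1 ≤ N →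
      (({t : Fin k → ℕ | (∀ i, x i < t i ∧ t i ≤ x i + N) ∧
        ¬ Good D C₀ h P fun i => perMat (h i) (P i) (t i : ℝ)}.ncard : ℕ) : ℝ) ≤
        C * (N : ℝ) ^ (k - 1) * ∑ i, (1 + N / ((x i : ℝ) + N) ^ c) := by
    intro D
    obtain ⟨c, C, hc, hC, hmain⟩ := Pool.Agent.V11273.GH.idc_main k (D + D * D) e r ρ n h fun i δ => fam (hG i) δ
    refine ⟨c, C, hc, hC, ?_⟩
    intro P hP C₀ x N hN
    set E := {t : Fin k → ℕ | (∀ i, x i < t i ∧ t i ≤ x i + N) ∧
        ¬ Good D C₀ h P fun i => perMat (h i) (P i) (t i : ℝ)} with hE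
    have hfin : E.Finite := by
      refine (Set.finite_Iic (fun i : Fin k => x i + N)).subset ?_
      intro t ht i
      exact (ht.1 i).2
    rw [Set.ncard_eq_toFinset_card E hfin]
    refine hmain P hP C₀ x N hN _ fun t ht => ?_
    have ht' : t ∈ E := hfin.mem_toFinset.1 ht
    exact ⟨ht'.1, fun hgood => ht'.2 (good_of hgood)⟩
  refine ⟨hmain, ?_⟩
  choose c C hc hC hcount using hmain
  obtain ⟨D, hD, hδ⟩ := Pool.Agent.Y123.GN.diag_seq
    (fun D N => C D * k * (1 / (N : ℝ) + 1 / (N : ℝ) ^ (c D))) (by
      intro D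
      have h1 : Tendsto (fun N : ℕ => (1 : ℝ) / (N : ℝ)) atTop (nhds 0) :=
        tendsto_one_div_atTop_nhds_zero_nat
      have h2 : Tendsto (fun N : ℕ => (1 : ℝ) / (N : ℝ) ^ (c D)) atTop (nhds 0) := by
        have h3 := (tendsto_rpow_atTop (hc D)).comp tendsto_natCast_atTop_atTop
        have h4 := h3.inv_tendsto_atTop
        refine h4.congr fun N => ?_
        rw [one_div]
        rfl
      have h5 := (h1.add h2).const_mul (C D * k)
      rw [add_zero, mul_zero] at h5
      exact h5)
  refine ⟨D, _, hD, hδ, ?_⟩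
  intro P hP C₀ N hN
  have h1 := hcount (D N) P hP C₀ (fun _ => 0) N hN
  have h2 : {t : Fin k → ℕ | (∀ i, 0 < t i ∧ t i ≤ 0 + N) ∧
      ¬ Good (D N) C₀ h P fun i => perMat (h i) (P i) (t i : ℝ)} =
      {t : Fin k → ℕ | (∀ i, 1 ≤ t i ∧ t i ≤ N) ∧
      ¬ Good (D N) C₀ h P fun i => perMat (h i) (P i) (t i : ℝ)} := by
    ext t
    simp only [Set.mem_setOf_eq, zero_add, Nat.lt_iff_add_one_le]
  rw [h2] at h1
  refine h1.trans (le_of_eq ?_)
  have hN0 : (N : ℝ) ≠ 0 := by
    have : N ≠ 0 := by omega
    exact_mod_cast this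
  rw [Finset.sum_const, Finset.card_univ, Fintype.card_fin, nsmul_eq_mul, Nat.cast_zero, zero_add]
  rcases Nat.eq_zero_or_pos k with hk | hk
  · subst hk
    simp
  · obtain ⟨s, rfl⟩ : ∃ s, k = s + 1 := ⟨k - 1, by omega⟩
    have h3 : (N : ℝ) ^ (s + 1) = (N : ℝ) ^ s * N := pow_succ _ _
    rw [Nat.add_sub_cancel, h3]
    have h4 : (1 : ℝ) + N / (N : ℝ) ^ (c (D N)) = N * (1 / (N : ℝ) + 1 / (N : ℝ) ^ (c (D N))) := by
      rw [mul_add, mul_one_div_cancel hN0, mul_one_div]
    rw [h4]
    ring

end Pool.Agent.Results.MP_cbf1af_ag.TensorCategoryPeriods
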